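import Pool.Agent.H867.FT.Gen9

/-!
# A Noetherian local ring and its completion have the same dimension
-/

set_option autoImplicit false

namespace Pool.Agent.H727.FT867CDM

open IsLocalRing

theorem exists_sop (R : Type) [CommRing R] [IsLocalRing R] [IsNoetherianRing R] :
    ∃ (s : Finset R) (N : ℕ), (s.card : ℕ∞) = (maximalIdeal R).height ∧
      Ideal.span (s : Set R) ≤ maximalIdeal R ∧ maximalIdeal R ^ N ≤ Ideal.span (s : Set R) := by
  obtain ⟨s, hs, hc⟩ := Ideal.exists_finset_card_eq_height_of_isNoetherianRing (maximalIdeal R)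
  have hle : Ideal.span (s : Set R) ≤ maximalIdeal R := hs.1.2
  have hrad : maximalIdeal R ≤ (Ideal.span (s : Set R)).radical := by
    intro x hx
    rw [Ideal.radical_eq_sInf, Submodule.mem_sInf]
    rintro p ⟨hp1, hp2⟩
    have h1 : p ≤ maximalIdeal R := le_maximalIdeal hp2.ne_top
    exact hs.2 ⟨hp2, hp1⟩ h1 hx
  obtain ⟨N, hN⟩ := Ideal.exists_radical_pow_le_of_fg (Ideal.span (s : Set R))
    (IsNoetherian.noetherian _)
  exact ⟨s, N, hc, hle, (Ideal.pow_right_mono hrad N).trans hN⟩

theorem height_le (R : Type) [CommRing R] [IsLocalRing R] [IsNoetherianRing R] (s : Finset R)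
    (N : ℕ) (h1 : Ideal.span (s : Set R) ≤ maximalIdeal R)
    (h2 : maximalIdeal R ^ N ≤ Ideal.span (s : Set R)) :
    (maximalIdeal R).height ≤ s.card := by
  apply Ideal.height_le_card_of_mem_minimalPrimes_span_finset
  refine ⟨⟨inferInstance, h1⟩, ?_⟩
  rintro p ⟨hp1, hp2⟩ _
  exact Ideal.IsPrime.le_of_pow_le (h2.trans hp2)

theorem cdm : Pool.Agent.H867.FT.S_CDM := by
  intro R S _ _ _ _ _ _ ι hd hm
  have hlm : ∀ r : R, r ∈ maximalIdeal R ↔ ι r ∈ maximalIdeal S := by
    intro r
    have := hm 1 r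
    rwa [pow_one, pow_one] at this
  -- the maximal ideal of `S` is generated by that of `R`
  have hmax : maximalIdeal S ≤ (maximalIdeal R).map ι := by
    apply Submodule.le_of_le_smul_of_le_jacobson_bot (I := maximalIdeal S)
      (IsNoetherian.noetherian _) (maximalIdeal_le_jacobson _)
    intro s hs
    obtain ⟨r, hr⟩ := hd 2 s
    have h1 : ι r ∈ maximalIdeal S := by
      have h2 : s - ι r ∈ maximalIdeal S := Ideal.pow_le_self (by norm_num) hr
      have h3 := (maximalIdeal S).sub_mem hs h2
      rwa [sub_sub_cancel] at h3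
    have h4 : ι r ∈ (maximalIdeal R).map ι := Ideal.mem_map_of_mem ι ((hlm r).2 h1)
    have h5 : s - ι r ∈ maximalIdeal S • maximalIdeal S := by
      rw [smul_eq_mul, ← pow_two]
      exact hr
    rw [← add_sub_cancel (ι r) s]
    exact Submodule.add_mem_sup h4 h5
  rw [← maximalIdeal_height_eq_ringKrullDim, ← maximalIdeal_height_eq_ringKrullDim]
  congr 1
  apply le_antisymm
  · obtain ⟨s, N, hc, h1, h2⟩ := exists_sop R
    rw [← hc]
    classical
    have e1 : Ideal.span ((s.image ι : Finset S) : Set S) = (Ideal.span (s : Set R)).map ι := by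
      rw [Finset.coe_image, Ideal.map_span]
    refine (height_le S (s.image ι) N ?_ ?_).trans (by exact_mod_cast Finset.card_image_le)
    · rw [e1, Ideal.map_le_iff_le_comap]
      intro r hr
      exact (hlm r).1 (h1 hr)
    · rw [e1]
      calc maximalIdeal S ^ N ≤ ((maximalIdeal R).map ι) ^ N := Ideal.pow_right_mono hmax N
        _ = (maximalIdeal R ^ N).map ι := (Ideal.map_pow ι _ N).symm
        _ ≤ _ := Ideal.map_mono h2
  · obtain ⟨t, N, hc, h1, h2⟩ := exists_sop S
    rw [← hc]
    classical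
    choose x hx using fun y : S => hd (N + 1) y
    have hJ : Ideal.span (t : Set S) ≤ (Ideal.span ((t.image x : Finset R) : Set R)).map ι := by
      apply Submodule.le_of_le_smul_of_le_jacobson_bot (I := maximalIdeal S)
        (IsNoetherian.noetherian _) (maximalIdeal_le_jacobson _)
      rw [Ideal.span_le]
      intro y hy
      have k1 : ι (x y) ∈ (Ideal.span ((t.image x : Finset R) : Set R)).map ι :=
        Ideal.mem_map_of_mem ι (Ideal.subset_span (Finset.mem_coe.2 (Finset.mem_image_of_mem x hy)))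
      have k2 : y - ι (x y) ∈ maximalIdeal S • Ideal.span (t : Set S) := by
        have k3 := hx y
        rw [pow_succ'] at k3
        exact Ideal.mul_mono_right h2 k3
      show y ∈ _
      rw [← add_sub_cancel (ι (x y)) y]
      exact Submodule.add_mem_sup k1 k2
    refine (height_le R (t.image x) N ?_ ?_).trans (by exact_mod_cast Finset.card_image_le)
    · rw [Ideal.span_le]
      intro r hr
      obtain ⟨y, hy, rfl⟩ := Finset.mem_image.1 (Finset.mem_coe.1 hr)
      have k1 : y ∈ maximalIdeal S := h1 (Ideal.subset_span hy)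
      have k2 : y - ι (x y) ∈ maximalIdeal S := Ideal.pow_le_self (by omega) (hx y)
      have k3 := (maximalIdeal S).sub_mem k1 k2
      rw [sub_sub_cancel] at k3
      exact (hlm _).2 k3
    · intro r hr
      obtain ⟨I, hI⟩ : ∃ I, I = Ideal.span ((t.image x : Finset R) : Set R) := ⟨_, rfl⟩
      rw [← hI] at hJ ⊢
      have k1 : ι r ∈ I.map ι := hJ (h2 ((hm N r).1 hr))
      have k2 : ∀ M : ℕ, ∀ z ∈ I.map ι, ∃ r' ∈ I, z - ι r' ∈ maximalIdeal S ^ M := by
        intro M z hz
        refine Submodule.span_induction (p := fun z _ => ∃ r' ∈ I, z - ι r' ∈ maximalIdeal S ^ M)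
          ?_ ?_ ?_ ?_ hz
        · rintro _ ⟨a, ha, rfl⟩
          exact ⟨a, ha, by rw [sub_self]; exact Ideal.zero_mem _⟩
        · exact ⟨0, I.zero_mem, by rw [map_zero, sub_self]; exact Ideal.zero_mem _⟩
        · rintro u v _ _ ⟨a, ha, ha'⟩ ⟨b, hb, hb'⟩
          refine ⟨a + b, I.add_mem ha hb, ?_⟩
          rw [map_add, add_sub_add_comm]
          exact Ideal.add_mem _ ha' hb'
        · rintro c u _ ⟨a, ha, ha'⟩
          obtain ⟨r₀, hr₀⟩ := hd M c
          refine ⟨r₀ * a, I.mul_mem_left _ ha, ?_⟩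
          have e : c • u - ι (r₀ * a) = c * (u - ι a) + (c - ι r₀) * ι a := by
            rw [map_mul, smul_eq_mul]
            ring
          rw [e]
          exact Ideal.add_mem _ (Ideal.mul_mem_left _ _ ha') (Ideal.mul_mem_right _ _ hr₀)
      have k3 : ∀ M : ℕ, ∃ r' ∈ I, r - r' ∈ maximalIdeal R ^ M := by
        intro M
        obtain ⟨r', h3, h4⟩ := k2 M _ k1
        refine ⟨r', h3, (hm M _).2 ?_⟩
        rw [map_sub]
        exact h4
      have k4 : (Ideal.Quotient.mk I r) ∈ (⨅ i : ℕ, maximalIdeal R ^ i • ⊤ : Submodule R (R ⧸ I)) := by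
        rw [Submodule.mem_iInf]
        intro M
        obtain ⟨r', h3, h4⟩ := k3 M
        have e : Ideal.Quotient.mk I r = (r - r') • (Ideal.Quotient.mk I 1) := by
          rw [Algebra.smul_def, Ideal.Quotient.algebraMap_eq, ← map_mul, mul_one, map_sub,
            Ideal.Quotient.eq_zero_iff_mem.2 h3, sub_zero]
        rw [e]
        exact Submodule.smul_mem_smul h4 Submodule.mem_top
      rw [Ideal.iInf_pow_smul_eq_bot_of_isLocalRing _ (Ideal.IsPrime.ne_top inferInstance),
        Submodule.mem_bot] at k4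
      exact Ideal.Quotient.eq_zero_iff_mem.1 k4

end Pool.Agent.H727.FT867CDM
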